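import Mathlib
import Pool.Agent.L7h59.TW.Def
import Pool.Agent.Y778.SL.K0Ext

/-!
# `K₀` has maps `blow` and commutes with directed unions
-/

set_option autoImplicit false

open Matrix

namespace Pool.Agent.L7h75.TW

open Pool.Agent.Y778.NK Pool.Agent.Y778.SL Pool.Agent.Y69

noncomputable section

theorem ind0 {A D : Type} [Ring A] [AddCommGroup D] {F G : K0 A →+ D}
    (h : ∀ (n : ℕ) (e : Matrix (Fin n) (Fin n) A) (he : e * e = e), F (cl0 e he) = G (cl0 e he))
    (x : K0 A) : F x = G x := by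
  obtain ⟨m, n, e, he, e', he', rfl⟩ := K0_exists' x
  rw [map_sub, map_sub, h, h]

theorem blow_map0 {A B C X : Type} [Ring A] [Ring B] [Ring C] [Fintype X] [DecidableEq X]
    (f : A →+* B) (θ : B →+* Matrix X X C) (x : K0 A) :
    blowK θ (K0.map f x) = blowK (θ.comp f) x := by
  refine ind0 (F := (blowK θ).comp (K0.map f)) (G := blowK (θ.comp f)) ?_ x
  intro n e he
  show blowK θ (K0.map f (cl0 e he)) = _
  rw [K0map_cl0, blowK_cl0, blowK_cl0]
  exact cl0_eq _ _ rfl

theorem map_blow0 {B C D X : Type} [Ring B] [Ring C] [Ring D] [Fintype X] [DecidableEq X]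
    (θ : B →+* Matrix X X C) (g : C →+* D) (x : K0 B) :
    K0.map g (blowK θ x) = blowK (g.mapMatrix.comp θ) x := by
  refine ind0 (F := (K0.map g).comp (blowK θ)) (G := blowK (g.mapMatrix.comp θ)) ?_ x
  intro n e he
  show K0.map g (blowK θ (cl0 e he)) = _
  rw [blowK_cl0, K0map_cl0, blowK_cl0]
  exact cl0_eq _ _ rfl

theorem blow_unique0 {B C X : Type} [Ring B] [Ring C] [Fintype X] [DecidableEq X] [Unique X]
    (θ : B →+* Matrix X X C) (f : B →+* C) (hf : ∀ b x y, θ b x y = f b) (x : K0 B) :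
    blowK θ x = K0.map f x := by
  refine ind0 (F := blowK θ) (G := K0.map f) ?_ x
  intro n e he
  rw [blowK_cl0, K0map_cl0]
  exact cl0_congr (Equiv.prodUnique (Fin n) X) _ _ fun i j => hf _ _ _

/-- the matrix `1 ⊗ u` -/
def krn {ι X C : Type} [DecidableEq ι] [Ring C] (u : Matrix X X C) : Matrix (ι × X) (ι × X) C :=
  Matrix.of fun p q => if p.1 = q.1 then u p.2 q.2 else 0

theorem krn_mul {ι X C : Type} [DecidableEq ι] [Ring C] [Fintype ι] [Fintype X]
    (u v : Matrix X X C) : krn (ι := ι) u * krn v = krn (u * v) := by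
  ext p q : 1
  rw [Matrix.mul_apply, Fintype.sum_prod_type]
  simp only [krn, Matrix.of_apply, ite_mul, zero_mul]
  rw [Finset.sum_eq_single p.1]
  · simp only [if_true, mul_ite, mul_zero]
    split_ifs with h
    · rw [Matrix.mul_apply]
    · simp
  · intro i _ hi
    simp [Ne.symm hi]
  · simp

theorem krn_one {ι X C : Type} [DecidableEq ι] [Ring C] [DecidableEq X] :
    krn (ι := ι) (1 : Matrix X X C) = 1 := by
  ext p q : 1
  simp only [krn, Matrix.of_apply, Matrix.one_apply, Prod.ext_iff]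
  split_ifs <;> simp_all

theorem blow_conj0 {B C X : Type} [Ring B] [Ring C] [Fintype X] [DecidableEq X]
    (θ θ' : B →+* Matrix X X C) (u v : Matrix X X C) (_huv : u * v = 1) (hvu : v * u = 1)
    (h : ∀ b, θ' b = u * θ b * v) (x : K0 B) : blowK θ' x = blowK θ x := by
  refine ind0 (F := blowK θ') (G := blowK θ) ?_ x
  intro n e he
  rw [blowK_cl0, blowK_cl0]
  apply cl0_conj _ _ (krn u) (krn v)
  · rw [krn_mul, hvu, krn_one]
  · ext p q : 1
    have h1 : bl θ' e p q = (u * θ (e p.1 q.1) * v) p.2 q.2 := by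
      rw [← h]; rfl
    rw [h1, Matrix.mul_apply, Matrix.mul_apply, Fintype.sum_prod_type]
    rw [Finset.sum_eq_single q.1]
    · refine Finset.sum_congr rfl fun y _ => ?_
      simp only [krn, Matrix.of_apply, if_true]
      congr 1
      rw [Matrix.mul_apply, Matrix.mul_apply, Fintype.sum_prod_type]
      rw [Finset.sum_eq_single p.1]
      · refine Finset.sum_congr rfl fun z _ => ?_
        simp only [Matrix.of_apply, if_true]
        rfl
      · intro i _ hi
        simp [Ne.symm hi]
      · simp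
    · intro i _ hi
      simp [krn, hi]
    · simp

theorem cl0_fsum {R ι Y : Type} [Ring R] [Fintype ι] [DecidableEq ι] (E : Y → Matrix ι ι R)
    (hE : ∀ y, E y * E y = E y) (ho : ∀ y y', y ≠ y' → E y * E y' = 0) (s : Finset Y) :
    ∃ h : (∑ y ∈ s, E y) * (∑ y ∈ s, E y) = ∑ y ∈ s, E y,
      cl0 (∑ y ∈ s, E y) h = ∑ y ∈ s, cl0 (E y) (hE y) := by
  classical
  induction s using Finset.induction_on with
  | empty =>
    refine ⟨by simp, ?_⟩
    rw [cl0_eq (f := 0) _ (mul_zero _) (by simp), cl0_zero, Finset.sum_empty]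
  | insert a s ha ih =>
    obtain ⟨h, ih⟩ := ih
    have h1 : E a * ∑ y ∈ s, E y = 0 := by
      rw [Finset.mul_sum]
      exact Finset.sum_eq_zero fun y hy => ho a y fun e => ha (e ▸ hy)
    have h2 : (∑ y ∈ s, E y) * E a = 0 := by
      rw [Finset.sum_mul]
      exact Finset.sum_eq_zero fun y hy => ho y a fun e => ha (e ▸ hy)
    have h3 := cl0_orth (hE a) h h1 h2
    have h4 : ∑ y ∈ insert a s, E y = E a + ∑ y ∈ s, E y := Finset.sum_insert ha
    refine ⟨by rw [h4]; exact orth_idem (hE a) h h1 h2, ?_⟩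
    rw [cl0_eq _ (orth_idem (hE a) h h1 h2) h4, h3, ih, Finset.sum_insert ha]

theorem blow_sum0 {B C X Y : Type} [Ring B] [Ring C] [Fintype X] [DecidableEq X] [Fintype Y]
    [DecidableEq Y] (θ : B →+* Matrix X X C) (ρ : X → Y)
    (θs : ∀ y, B →+* Matrix {x // ρ x = y} {x // ρ x = y} C)
    (h0 : ∀ b x x', ρ x ≠ ρ x' → θ b x x' = 0)
    (hs : ∀ b y (x x' : {x // ρ x = y}), θs y b x x' = θ b x x') (x : K0 B) :
    blowK θ x = ∑ y, blowK (θs y) x := by
  have h := ind0 (F := blowK θ) (G := ∑ y, blowK (θs y)) (fun n e he => by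
    rw [AddMonoidHom.finsetSum_apply]
    let D : Y → Matrix (Fin n × X) (Fin n × X) C := fun y =>
      Matrix.diagonal fun p => if ρ p.2 = y then 1 else 0
    have hM : bl θ e * bl θ e = bl θ e := bl_idem θ he
    have hD : ∀ y, D y * D y = D y := by
      intro y
      simp only [D]
      rw [Matrix.diagonal_mul_diagonal]
      congr 1
      funext p
      split_ifs <;> simp
    have hDD : ∀ y y', y ≠ y' → D y * D y' = 0 := by
      intro y y' hy
      simp only [D]
      rw [Matrix.diagonal_mul_diagonal]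
      have : (fun p : Fin n × X => (if ρ p.2 = y then (1 : C) else 0) * if ρ p.2 = y' then 1 else 0)
          = fun _ => 0 := by
        funext p
        split_ifs with h1 h2
        · exact absurd (h1.symm.trans h2) hy
        all_goals simp
      rw [this]
      exact Matrix.diagonal_zero
    have hD1 : ∑ y, D y = 1 := by
      ext p q : 1
      rw [Matrix.sum_apply]
      simp only [D, Matrix.diagonal_apply, Matrix.one_apply]
      split_ifs with hpq
      · simp
      · simp
    have hc : ∀ y, D y * bl θ e = bl θ e * D y := by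
      intro y
      ext p q : 1
      rw [Matrix.diagonal_mul, Matrix.mul_diagonal]
      by_cases hpq : ρ p.2 = ρ q.2
      · rw [hpq]
        split_ifs <;> simp
      · have : bl θ e p q = 0 := h0 _ _ _ hpq
        rw [this]
        simp
    have hE : ∀ y, (bl θ e * D y) * (bl θ e * D y) = bl θ e * D y := by
      intro y
      rw [Matrix.mul_assoc, ← Matrix.mul_assoc (D y), hc, Matrix.mul_assoc (bl θ e) (D y), hD,
        ← Matrix.mul_assoc, hM]
    have ho : ∀ y y', y ≠ y' → (bl θ e * D y) * (bl θ e * D y') = 0 := by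
      intro y y' hy
      rw [Matrix.mul_assoc, ← Matrix.mul_assoc (D y), hc, Matrix.mul_assoc (bl θ e) (D y), hDD y y' hy]
      simp
    obtain ⟨h1, h2⟩ := cl0_fsum _ hE ho Finset.univ
    have h3 : ∑ y, bl θ e * D y = bl θ e := by
      rw [← Finset.mul_sum, hD1, Matrix.mul_one]
    rw [blowK_cl0, cl0_eq (bl_idem θ he) h1 h3.symm, h2]
    refine Finset.sum_congr rfl fun y _ => ?_
    rw [blowK_cl0]
    let j : Fin n × {x // ρ x = y} → Fin n × X := fun q => (q.1, q.2.1)
    apply cl0_swap _ _ ((bl θ e).submatrix id j) ((1 : Matrix (Fin n × X) (Fin n × X) C).submatrix j id)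
    · ext p q : 1
      rw [Matrix.mul_diagonal, Matrix.mul_apply]
      simp only [Matrix.submatrix_apply, id, Matrix.one_apply, mul_ite, mul_one, mul_zero]
      split_ifs with hq
      · rw [Finset.sum_eq_single (⟨q.1, ⟨q.2, hq⟩⟩ : Fin n × {x // ρ x = y})]
        · simp [j]
        · intro b _ hb
          rw [if_neg]
          intro hb'
          apply hb
          have h5 : b.1 = q.1 := congrArg Prod.fst hb'
          have h6 : b.2.1 = q.2 := congrArg Prod.snd hb'
          exact Prod.ext h5 (Subtype.ext h6)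
        · simp
      · refine Finset.sum_eq_zero fun b _ => ?_
        rw [if_neg]
        intro hb'
        apply hq
        have h6 : b.2.1 = q.2 := congrArg Prod.snd hb'
        rw [← h6]
        exact b.2.2
    · ext p q : 1
      rw [Matrix.mul_apply]
      simp only [Matrix.submatrix_apply, id, Matrix.one_apply, ite_mul, one_mul, zero_mul]
      rw [Finset.sum_ite_eq]
      simp only [Finset.mem_univ, if_true]
      exact (hs _ _ _ _).symm) x
  rw [h, AddMonoidHom.finsetSum_apply]

theorem blow0 : Nonempty (Pool.Agent.L7h59.TW.Blow Pool.Agent.L7h59.TW.k0) :=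
  ⟨{ blow := fun θ => blowK θ
     map_map := fun f g x => K0map_comp f g x
     blow_map := fun f θ x => blow_map0 f θ x
     map_blow := fun θ g x => map_blow0 θ g x
     blow_conj := fun θ θ' u v h1 h2 h x => blow_conj0 θ θ' u v h1 h2 h x
     blow_sum := fun θ ρ θs h0 hs x => blow_sum0 θ ρ θs h0 hs x
     blow_unique := fun θ f h x => blow_unique0 θ f h x }⟩

/-! ### Directed unions -/

theorem mapId_injective {R S : Type} [Ring R] [Ring S] (f : R →+* S) (hf : Function.Injective f) :
    Function.Injective (fun x : Σ n : ℕ, IdMat R n => (⟨x.1, mapId f x.2⟩ : Σ n : ℕ, IdMat S n)) := by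
  rintro ⟨n, e⟩ ⟨n', e'⟩ h
  simp only [Sigma.mk.injEq] at h
  obtain ⟨h1, h2⟩ := h
  subst h1
  have h3 := eq_of_heq h2
  congr 1
  apply Subtype.ext
  ext i j : 1
  apply hf
  have h4 := congrArg (fun z : IdMat S n => (z : Matrix (Fin n) (Fin n) S) i j) h3
  exact h4

theorem fmap_injective {α β : Type} [Nonempty α] (f : α → β) (hf : Function.Injective f) :
    Function.Injective (FreeAbelianGroup.map f) := by
  obtain ⟨g, hg⟩ := hf.hasLeftInverse
  have : ∀ x, FreeAbelianGroup.map g (FreeAbelianGroup.map f x) = x := by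
    intro x
    have h1 := DFunLike.congr_fun (FreeAbelianGroup.map_comp (f := f) (g := g)) x
    have h2 : g ∘ f = id := funext hg
    rw [h2, FreeAbelianGroup.map_id] at h1
    exact h1.symm
  exact Function.LeftInverse.injective this

/-- the entrywise image on the free abelian groups -/
def fm {R S : Type} [Ring R] [Ring S] (f : R →+* S) :
    FreeAbelianGroup (Σ n : ℕ, IdMat R n) →+ FreeAbelianGroup (Σ n : ℕ, IdMat S n) :=
  FreeAbelianGroup.map fun x => ⟨x.1, mapId f x.2⟩

theorem map_mk0 {R S : Type} [Ring R] [Ring S] (f : R →+* S)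
    (z : FreeAbelianGroup (Σ n : ℕ, IdMat R n)) :
    K0.map f (QuotientAddGroup.mk z : K0 R) = (QuotientAddGroup.mk (fm f z) : K0 S) := by
  have h : (K0.map f).comp (QuotientAddGroup.mk' (AddSubgroup.closure (K0Rel R))) =
      (QuotientAddGroup.mk' (AddSubgroup.closure (K0Rel S))).comp (fm f) := by
    apply FreeAbelianGroup.lift_ext
    rintro ⟨n, e⟩
    show K0.map f (K0.mk e) = QuotientAddGroup.mk (fm f (FreeAbelianGroup.of ⟨n, e⟩))
    rw [K0.map_mk, fm, FreeAbelianGroup.map_of_apply]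
    rfl
  exact DFunLike.congr_fun h z

/-- the entries of a matrix -/
def ent {B : Type} {m n : ℕ} (e : Matrix (Fin m) (Fin n) B) : Finset B := by
  classical exact Finset.univ.image fun p : Fin m × Fin n => e p.1 p.2

theorem mem_ent {B : Type} {m n : ℕ} (e : Matrix (Fin m) (Fin n) B) (i : Fin m) (j : Fin n) :
    e i j ∈ ent e := by
  classical
  exact Finset.mem_image.2 ⟨(i, j), Finset.mem_univ _, rfl⟩

theorem lift_mat {B B' : Type} [Ring B] [Ring B'] (f : B' →+* B) {m n : ℕ}
    (e : Matrix (Fin m) (Fin n) B) (h : ∀ b ∈ ent e, b ∈ Set.range f) :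
    ∃ e' : Matrix (Fin m) (Fin n) B', e'.map f = e := by
  choose g hg using fun i j => h _ (mem_ent e i j)
  exact ⟨Matrix.of g, by ext i j; exact hg i j⟩

theorem map_inj {B B' : Type} [Ring B] [Ring B'] (f : B' →+* B) (hf : Function.Injective f)
    {m n : ℕ} {e e' : Matrix (Fin m) (Fin n) B'} (h : e.map f = e'.map f) : e = e' := by
  ext i j
  exact hf (congrFun (congrFun h i) j)

theorem lift_id {B B' : Type} [Ring B] [Ring B'] (f : B' →+* B) (hf : Function.Injective f) {n : ℕ}
    (e : IdMat B n) (h : ∀ b ∈ ent (e : Matrix (Fin n) (Fin n) B), b ∈ Set.range f) :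
    ∃ e' : IdMat B' n, mapId f e' = e := by
  obtain ⟨e', he'⟩ := lift_mat f _ h
  refine ⟨⟨e', map_inj f hf ?_⟩, Subtype.ext he'⟩
  rw [Matrix.map_mul, he', e.2]

theorem closure_lift {B : Type} [Ring B] (w : FreeAbelianGroup (Σ n : ℕ, IdMat B n))
    (hw : w ∈ AddSubgroup.closure (K0Rel B)) : ∃ s : Finset B, ∀ (B' : Type) [Ring B']
      (f : B' →+* B), Function.Injective f → (∀ b ∈ s, b ∈ Set.range f) →
      ∃ w' ∈ AddSubgroup.closure (K0Rel B'), fm f w' = w := by
  classical
  induction hw using AddSubgroup.closure_induction with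
  | mem x hx =>
    rcases hx with ⟨m, n, e, e', d, hd, rfl⟩ | ⟨m, n, e, e', u, v, h1, h2, rfl⟩
    · refine ⟨ent (e : Matrix (Fin m) (Fin m) B) ∪ ent (e' : Matrix (Fin n) (Fin n) B), ?_⟩
      intro B' _ f hf hs
      obtain ⟨a, ha⟩ := lift_id f hf e fun b hb => hs b (Finset.mem_union_left _ hb)
      obtain ⟨a', ha'⟩ := lift_id f hf e' fun b hb => hs b (Finset.mem_union_right _ hb)
      refine ⟨_, AddSubgroup.subset_closure (Or.inl ⟨m, n, a, a',
        ⟨_, reindex_idem finSumFinEquiv (blocks_idem a.2 a'.2)⟩, rfl, rfl⟩), ?_⟩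
      rw [map_sub, map_add]
      simp only [fm, FreeAbelianGroup.map_of_apply]
      rw [ha, ha']
      congr 3
      · congr 1
        apply Subtype.ext
        rw [hd, ← ha, ← ha']
        ext i j
        obtain ⟨i, rfl⟩ := finSumFinEquiv.surjective i
        obtain ⟨j, rfl⟩ := finSumFinEquiv.surjective j
        rcases i with i | i <;> rcases j with j | j <;> simp [mapId]
    · refine ⟨ent u ∪ ent v, ?_⟩
      intro B' _ f hf hs
      obtain ⟨a, ha⟩ := lift_mat f u fun b hb => hs b (Finset.mem_union_left _ hb)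
      obtain ⟨a', ha'⟩ := lift_mat f v fun b hb => hs b (Finset.mem_union_right _ hb)
      have h3 : (a * a') * (a * a') = a * a' := by
        apply map_inj f hf
        rw [Matrix.map_mul, Matrix.map_mul, ha, ha', h1, e.2]
      have h4 : (a' * a) * (a' * a) = a' * a := by
        apply map_inj f hf
        rw [Matrix.map_mul, Matrix.map_mul, ha, ha', h2, e'.2]
      refine ⟨_, AddSubgroup.subset_closure (Or.inr ⟨m, n, ⟨_, h3⟩, ⟨_, h4⟩, a, a', rfl, rfl, rfl⟩), ?_⟩
      rw [map_sub]
      simp only [fm, FreeAbelianGroup.map_of_apply]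
      have h5 : mapId f (⟨_, h3⟩ : IdMat B' m) = e := by
        apply Subtype.ext
        show (a * a').map f = _
        rw [Matrix.map_mul, ha, ha', h1]
      have h6 : mapId f (⟨_, h4⟩ : IdMat B' n) = e' := by
        apply Subtype.ext
        show (a' * a).map f = _
        rw [Matrix.map_mul, ha, ha', h2]
      rw [h5, h6]
  | zero => exact ⟨∅, fun B' _ f _ _ => ⟨0, zero_mem _, map_zero _⟩⟩
  | add x y _ _ hx hy =>
    obtain ⟨s, hs⟩ := hx
    obtain ⟨t, ht⟩ := hy
    refine ⟨s ∪ t, fun B' _ f hf h => ?_⟩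
    obtain ⟨a, ha, ha'⟩ := hs B' f hf fun b hb => h b (Finset.mem_union_left _ hb)
    obtain ⟨c, hc, hc'⟩ := ht B' f hf fun b hb => h b (Finset.mem_union_right _ hb)
    exact ⟨a + c, add_mem ha hc, by rw [map_add, ha', hc']⟩
  | neg x _ hx =>
    obtain ⟨s, hs⟩ := hx
    refine ⟨s, fun B' _ f hf h => ?_⟩
    obtain ⟨a, ha, ha'⟩ := hs B' f hf h
    exact ⟨-a, neg_mem ha, by rw [map_neg, ha']⟩

theorem cont0 : Pool.Agent.L7h59.TW.Cont Pool.Agent.L7h59.TW.k0 := by
  classical
  constructor
  · intro B _ x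
    obtain ⟨m, n, e, e', hx⟩ := K0_exists (x : K0 B)
    refine ⟨ent (e : Matrix (Fin m) (Fin m) B) ∪ ent (e' : Matrix (Fin n) (Fin n) B), ?_⟩
    intro B' _ f hf hs
    obtain ⟨a, ha⟩ := lift_id f hf e fun b hb => hs b (Finset.mem_union_left _ hb)
    obtain ⟨a', ha'⟩ := lift_id f hf e' fun b hb => hs b (Finset.mem_union_right _ hb)
    refine ⟨(K0.mk a - K0.mk a' : K0 B'), ?_⟩
    show K0.map f (K0.mk a - K0.mk a') = x
    rw [map_sub, K0.map_mk, K0.map_mk, ha, ha', hx]
  · intro B₀ B _ _ f₀ x hx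
    obtain ⟨z, hz⟩ : ∃ z : FreeAbelianGroup (Σ n : ℕ, IdMat B₀ n),
        (QuotientAddGroup.mk z : K0 B₀) = x := QuotientAddGroup.mk_surjective _
    have hx' : K0.map f₀ (QuotientAddGroup.mk z : K0 B₀) = 0 := by rw [hz]; exact hx
    rw [map_mk0] at hx'
    have h1 : fm f₀ z ∈ AddSubgroup.closure (K0Rel B) := (QuotientAddGroup.eq_zero_iff _).1 hx'
    obtain ⟨s, hs⟩ := closure_lift _ h1
    refine ⟨s, ?_⟩
    intro B' _ g f hf hfg hs'
    obtain ⟨w', hw', hw''⟩ := hs B' f hf hs'
    have h2 : fm f (fm g z) = fm f₀ z := by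
      rw [← hfg]
      have h3 : (fm f).comp (fm g) = fm (f.comp g) := by
        apply FreeAbelianGroup.lift_ext
        rintro ⟨n, e⟩
        simp only [AddMonoidHom.comp_apply, fm, FreeAbelianGroup.map_of_apply]
        rfl
      exact DFunLike.congr_fun h3 z
    haveI : Nonempty (Σ n : ℕ, IdMat B' n) := ⟨⟨0, ⟨0, mul_zero _⟩⟩⟩
    have h4 : w' = fm g z := fmap_injective _ (mapId_injective f hf) (hw''.trans h2.symm)
    show K0.map g x = 0
    rw [← hz, map_mk0]
    exact (QuotientAddGroup.eq_zero_iff _).2 (h4 ▸ hw')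

theorem s_K0F : Pool.Agent.L7h59.TW.S_K0F := ⟨blow0, cont0⟩

end

end Pool.Agent.L7h75.TW
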