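import Mathlib
import Pool.Agent.L7h59.TW.Def
import Pool.Agent.Results.MP_6374fb_al.SemilocalK0

/-!
# Trivial actions, `K₀`
-/

set_option autoImplicit false

namespace Pool.Agent.L7h75.TW

open Pool.Agent.Y778.NK Pool.Agent.L7h59.TW

noncomputable section

section iso

variable {k H L : Type} [Field k] [Group H] [MulSemiringAction H k] [Group L] [MulSemiringAction L k]

theorem sk_ext {B : Type} [Ring B] {f g : SkewMonoidAlgebra k H →+* B}
    (h : ∀ a b, f (SkewMonoidAlgebra.single a b) = g (SkewMonoidAlgebra.single a b)) : f = g := by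
  have h1 : f.toAddMonoidHom = g.toAddMonoidHom := SkewMonoidAlgebra.addHom_ext h
  exact RingHom.ext fun x => DFunLike.congr_fun h1 x

omit [MulSemiringAction H k] in
theorem ma_ext {B : Type} [Ring B] {f g : MonoidAlgebra k H →+* B}
    (h : ∀ a b, f (MonoidAlgebra.single a b) = g (MonoidAlgebra.single a b)) : f = g :=
  MonoidAlgebra.ringHom_ext (fun b => h 1 b) (fun a => h a 1)

/-- `k ⋊ H → k[H]` for a trivial action -/
def toMA (h : ∀ (x : H) (a : k), x • a = a) : SkewMonoidAlgebra k H →+* MonoidAlgebra k H :=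
  SkewMonoidAlgebra.liftNCRingHom MonoidAlgebra.singleOneRingHom (MonoidAlgebra.of k H) (by
    intro x y
    rw [h]
    exact MonoidAlgebra.single_one_comm x (MonoidAlgebra.of k H y))

theorem toMA_single (h : ∀ (x : H) (a : k), x • a = a) (x : H) (a : k) :
    toMA h (SkewMonoidAlgebra.single x a) = MonoidAlgebra.single x a := by
  have h1 : toMA h (SkewMonoidAlgebra.single x a) =
      MonoidAlgebra.single 1 a * MonoidAlgebra.single x 1 :=
    SkewMonoidAlgebra.liftNC_single _ _ _ _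
  rw [h1, MonoidAlgebra.single_mul_single, one_mul, mul_one]

/-- `k[H] → k ⋊ H` for a trivial action -/
def ofMA (h : ∀ (x : H) (a : k), x • a = a) : MonoidAlgebra k H →+* SkewMonoidAlgebra k H :=
  MonoidAlgebra.liftNCRingHom SkewMonoidAlgebra.singleOneRingHom (SkewMonoidAlgebra.of k H) (by
    intro x y
    show SkewMonoidAlgebra.single 1 x * SkewMonoidAlgebra.single y 1 =
      SkewMonoidAlgebra.single y 1 * SkewMonoidAlgebra.single 1 x
    rw [SkewMonoidAlgebra.single_mul_single, SkewMonoidAlgebra.single_mul_single, h, h]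
    simp)

theorem ofMA_single (h : ∀ (x : H) (a : k), x • a = a) (x : H) (a : k) :
    ofMA h (MonoidAlgebra.single x a) = SkewMonoidAlgebra.single x a := by
  have h1 : ofMA h (MonoidAlgebra.single x a) =
      SkewMonoidAlgebra.single 1 a * SkewMonoidAlgebra.single x 1 :=
    MonoidAlgebra.liftNCRingHom_single _ _ _ _ _
  rw [h1, SkewMonoidAlgebra.single_mul_single, h, one_mul, mul_one]

theorem ofMA_toMA (h : ∀ (x : H) (a : k), x • a = a) :
    (ofMA h).comp (toMA h) = RingHom.id _ :=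
  sk_ext fun a b => by
    rw [RingHom.comp_apply, toMA_single, ofMA_single]
    rfl

end iso

section asm

variable {k N : Type} [Field k] [Group N] [MulSemiringAction N k]

open Pool.Agent.Y778.SL.St (KColim KG KF)

theorem subtr (h : ∀ (n : N) (a : k), n • a = a) (H : Subgroup N) (x : H) (a : k) : x • a = a :=
  h x a

/-- `colim K₀(k ⋊ H) → colim K₀(k[H])` on the free groups -/
def phi (h : ∀ (n : N) (a : k), n • a = a) :
    FreeAbelianGroup (Pool.Agent.L7h59.TW.Sym k0 k N) →+ KColim k N :=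
  FreeAbelianGroup.lift fun s =>
    KColim.ι (⟨s.1.1, s.1.2⟩ : Pool.Agent.Y69.FinSub N) (K0.map (toMA (subtr h s.1.1)) s.2)

/-- the inverse -/
def psiPre (h : ∀ (n : N) (a : k), n • a = a) :
    Pool.Agent.Y778.SL.St.Free k N →+ Pool.Agent.L7h59.TW.Colim k0 k N :=
  FreeAbelianGroup.lift fun s =>
    cl k0 (⟨s.1.1, s.1.2⟩ : Pool.Agent.Y69.FJ.FinSub N) (K0.map (ofMA (subtr h s.1.1)) s.2)

theorem cl_add (H : Pool.Agent.Y69.FJ.FinSub N) (x y : K0 (SkewMonoidAlgebra k H.1)) :
    cl (k := k) k0 H (x + y) = cl (k := k) k0 H x + cl (k := k) k0 H y := by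
  have h : sym k0 H (x + y) - (sym k0 H x + sym k0 H y) ∈ AddSubgroup.closure
      (Pool.Agent.L7h59.TW.Rel k0 k N) := AddSubgroup.subset_closure (Or.inl ⟨H, x, y, rfl⟩)
  exact sub_eq_zero.1 ((QuotientAddGroup.eq_zero_iff _).2 h)

theorem cl_conj (g : N) (H L : Pool.Agent.Y69.FJ.FinSub N) (h : ∀ x ∈ H.1, g * x * g⁻¹ ∈ L.1)
    (x : K0 (SkewMonoidAlgebra k H.1)) :
    cl (k := k) k0 L (K0.map (conjHom g h) x) = cl (k := k) k0 H x := by
  have h : sym k0 L (K0.map (conjHom g h) x) - sym k0 H x ∈ AddSubgroup.closure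
      (Pool.Agent.L7h59.TW.Rel k0 k N) := AddSubgroup.subset_closure (Or.inr ⟨g, H, L, h, x, rfl⟩)
  exact sub_eq_zero.1 ((QuotientAddGroup.eq_zero_iff _).2 h)

theorem psi_aux (h : ∀ (n : N) (a : k), n • a = a) :
    AddSubgroup.closure (Pool.Agent.Y778.SL.St.Rel k N) ≤ (psiPre (k := k) h).ker := by
  rw [AddSubgroup.closure_le]
  rintro x (⟨H, x, y, rfl⟩ | ⟨H, K, g, φ, x, hφ, rfl⟩)
  · show psiPre h _ = 0
    rw [map_sub, map_add, sub_eq_zero]
    simp only [psiPre, Pool.Agent.Y778.SL.St.Free.of]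
    erw [FreeAbelianGroup.lift_apply_of, FreeAbelianGroup.lift_apply_of,
      FreeAbelianGroup.lift_apply_of]
    have h1 : K0.map (ofMA (subtr h H.1)) ((x + y : KF k H) : K0 (MonoidAlgebra k H.1)) =
      K0.map (ofMA (subtr h H.1)) x + K0.map (ofMA (subtr h H.1)) y := map_add _ _ _
    show cl k0 _ (K0.map (ofMA (subtr h H.1)) ((x + y : KF k H) : K0 (MonoidAlgebra k H.1))) = _
    rw [h1]
    exact cl_add _ _ _
  · show psiPre h _ = 0
    rw [map_sub, sub_eq_zero]
    simp only [psiPre, Pool.Agent.Y778.SL.St.Free.of]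
    erw [FreeAbelianGroup.lift_apply_of, FreeAbelianGroup.lift_apply_of]
    have hc : ∀ z ∈ H.1, g * z * g⁻¹ ∈ K.1 := by
      intro z hz
      have h2 := hφ ⟨z, hz⟩
      rw [← h2]
      exact (φ ⟨z, hz⟩).2
    have h1 : K0.map (ofMA (subtr h K.1)) (K0.map (MonoidAlgebra.mapDomainRingHom k φ) x) =
        K0.map (conjHom g hc) (K0.map (ofMA (subtr h H.1)) x) := by
      rw [K0map_comp, K0map_comp]
      congr 1
      apply congrArg
      apply ma_ext
      intro a b
      rw [RingHom.comp_apply, RingHom.comp_apply, MonoidAlgebra.mapDomainRingHom_apply,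
        MonoidAlgebra.mapDomain_single, ofMA_single, ofMA_single]
      have h3 : conjHom g hc (SkewMonoidAlgebra.single a b) =
          SkewMonoidAlgebra.single 1 (g • b) * SkewMonoidAlgebra.single _ 1 :=
        SkewMonoidAlgebra.liftNC_single _ _ _ _
      rw [h3]
      rw [SkewMonoidAlgebra.single_mul_single, one_mul, h]
      rw [subtr h, mul_one]
      congr 1
      exact Subtype.ext (hφ a)
    show cl k0 _ (K0.map (ofMA (subtr h K.1)) (K0.map (MonoidAlgebra.mapDomainRingHom k φ) x)) = _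
    rw [h1]
    exact cl_conj g ⟨H.1, H.2⟩ ⟨K.1, K.2⟩ hc _

/-- the inverse -/
def psi (h : ∀ (n : N) (a : k), n • a = a) : KColim k N →+ Pool.Agent.L7h59.TW.Colim k0 k N :=
  QuotientAddGroup.lift _ (psiPre h) (psi_aux h)

theorem psi_phi (h : ∀ (n : N) (a : k), n • a = a)
    (z : FreeAbelianGroup (Pool.Agent.L7h59.TW.Sym k0 k N)) :
    psi h (phi h z) = (QuotientAddGroup.mk z : Pool.Agent.L7h59.TW.Colim k0 k N) := by
  have h1 : (psi h).comp (phi h) =
      QuotientAddGroup.mk' (AddSubgroup.closure (Pool.Agent.L7h59.TW.Rel k0 k N)) := by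
    apply FreeAbelianGroup.lift_ext
    rintro ⟨H, x⟩
    have h2 : phi h (FreeAbelianGroup.of ⟨H, x⟩) = KColim.ι (⟨H.1, H.2⟩ : Pool.Agent.Y69.FinSub N)
        (K0.map (toMA (subtr h H.1)) x) := FreeAbelianGroup.lift_apply_of _ _
    have h3 : psi h (phi h (FreeAbelianGroup.of ⟨H, x⟩)) = psiPre h (FreeAbelianGroup.of
        ⟨⟨H.1, H.2⟩, (K0.map (toMA (subtr h H.1)) x)⟩) := by
      rw [h2]
      rfl
    refine h3.trans ?_
    refine (FreeAbelianGroup.lift_apply_of _ _).trans ?_
    show cl k0 H (K0.map (ofMA (subtr h H.1)) (K0.map (toMA (subtr h H.1)) x)) = cl k0 H x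
    rw [K0map_comp, ofMA_toMA, K0map_id]
  exact DFunLike.congr_fun h1 z

theorem asm_phi (h : ∀ (n : N) (a : k), n • a = a) (A : KColim k N →+ KG k N)
    (hA : ∀ (H : Pool.Agent.Y69.FinSub N) (x : KF k H), A (KColim.ι H x) = KF.incl H x)
    (z : FreeAbelianGroup (Pool.Agent.L7h59.TW.Sym k0 k N)) :
    A (phi h z) = K0.map (toMA h) (asmPre k0 k N z) := by
  have h1 : A.comp (phi h) = (show K0 (SkewMonoidAlgebra k N) →+ KG k N from K0.map (toMA h)).comp
      (asmPre k0 k N) := by
    apply FreeAbelianGroup.lift_ext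
    rintro ⟨H, x⟩
    show A (phi h _) = K0.map (toMA h) (asmPre k0 k N _)
    unfold phi asmPre
    rw [FreeAbelianGroup.lift_apply_of, FreeAbelianGroup.lift_apply_of, hA]
    show K0.map (MonoidAlgebra.mapDomainRingHom k H.1.subtype) (K0.map (toMA (subtr h H.1)) x) =
      K0.map (toMA h) (K0.map (incHom k H.1) x)
    rw [K0map_comp, K0map_comp]
    apply congrArg (fun f => K0.map f x)
    apply sk_ext
    intro a b
    rw [RingHom.comp_apply, RingHom.comp_apply, toMA_single, MonoidAlgebra.mapDomainRingHom_apply,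
      MonoidAlgebra.mapDomain_single]
    show _ = toMA h (SkewMonoidAlgebra.mapDomain _ _)
    rw [SkewMonoidAlgebra.mapDomain_single, toMA_single]
  exact DFunLike.congr_fun h1 z

end asm

theorem s_TR0 : Pool.Agent.L7h59.TW.S_TR0 := by
  intro k N _ _ _ h z n hn hz
  obtain ⟨A, hA, hA'⟩ := Pool.Agent.Results.MP_6374fb_al.SemilocalK0.result k N
  have h1 : n • A (phi h z) = 0 := by
    rw [asm_phi h A hA]
    have h2 : n • (K0.map (toMA h) (asmPre k0 k N z)) = K0.map (toMA h) (n • asmPre k0 k N z) :=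
      (map_nsmul (K0.map (toMA h)) n _).symm
    exact h2.trans (by rw [hz]; exact map_zero (K0.map (toMA h)))
  obtain ⟨l, hl, hl'⟩ := hA' _ ⟨n, hn, h1⟩
  refine ⟨l, hl, ?_⟩
  have h3 : l • psi h (phi h z) = 0 := by
    have h4 := map_nsmul (psi h) l (phi h z)
    rw [hl', map_zero] at h4
    exact h4.symm
  have h5 := psi_phi h z
  rw [h5] at h3
  exact h3

end

end Pool.Agent.L7h75.TW
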